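import Mathlib

/-!
# Bit matrices

A matrix of bits with `n` rows and columns `0, ..., n - 1` is coded by a natural number: the entry
`(c, e)` is the bit with index `W * c + e`, where `W ≥ n`.
-/

set_option autoImplicit false

namespace Pool.Agent.Y441.BP

/-- `1 + 2 ^ w + ... + 2 ^ (w * (n - 1))` -/
def rp (w n : ℕ) : ℕ := (2 ^ (w * n) - 1) / (2 ^ w - 1)

/-- recursive form of `rp` -/
def rr (w : ℕ) : ℕ → ℕ
  | 0 => 0
  | k + 1 => 1 + 2 ^ w * rr w k

theorem rr_mul (w n : ℕ) : (2 ^ w - 1) * rr w n = 2 ^ (w * n) - 1 := by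
  have h1 : ∀ k : ℕ, 1 ≤ 2 ^ k := fun k => Nat.one_le_two_pow
  induction n with
  | zero => simp [rr]
  | succ n ih =>
    have h2 := h1 w
    have h3 := h1 (w * n)
    have h4 := h1 (w * (n + 1))
    zify [h2, h3, h4] at ih ⊢
    rw [rr]
    push_cast
    have : (2 : ℤ) ^ (w * (n + 1)) = 2 ^ w * 2 ^ (w * n) := by rw [← pow_add]; ring_nf
    rw [this]
    linear_combination (2 : ℤ) ^ w * ih

theorem rp_eq {w : ℕ} (hw : 0 < w) (n : ℕ) : rp w n = rr w n := by
  unfold rp
  rw [← rr_mul]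
  apply Nat.mul_div_cancel_left
  have : 1 < 2 ^ w := Nat.one_lt_two_pow hw.ne'
  omega

theorem testBit_mul_rp {w x : ℕ} (hw : 0 < w) (hx : x < 2 ^ w) (n j : ℕ) :
    (x * rp w n).testBit j = (decide (j < w * n) && x.testBit (j % w)) := by
  rw [rp_eq hw]
  induction n generalizing j with
  | zero => simp [rr]
  | succ n ih =>
    rw [rr, show x * (1 + 2 ^ w * rr w n) = 2 ^ w * (x * rr w n) + x by ring,
      Nat.testBit_two_pow_mul_add _ hx]
    split_ifs with h
    · rw [Nat.mod_eq_of_lt h]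
      have : j < w * (n + 1) := by nlinarith
      simp [this]
    · rw [ih]
      have h1 : (j - w) % w = j % w := by
        conv_rhs => rw [Nat.mod_eq_sub_mod (by omega : w ≤ j)]
      rw [h1]
      congr 1
      rw [decide_eq_decide, Nat.mul_succ]
      omega

theorem testBit_one' (i : ℕ) : (1 : ℕ).testBit i = decide (i = 0) := by
  rcases i with _ | i
  · rfl
  · simp [Nat.testBit_succ]

theorem testBit_rp {w : ℕ} (hw : 0 < w) (n j : ℕ) :
    (rp w n).testBit j = (decide (j < w * n) && decide (j % w = 0)) := by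
  have h := testBit_mul_rp (w := w) (x := 1) hw (Nat.one_lt_two_pow hw.ne') n j
  rw [one_mul, testBit_one'] at h
  exact h

/-- put bit `c` of `x` at the place `(n + 1) * c` -/
def spr (n x : ℕ) : ℕ := (x * rp n n) &&& rp (n + 1) n

theorem testBit_spr {n x : ℕ} (hx : x < 2 ^ n) (j : ℕ) :
    (spr n x).testBit j = (decide (j < (n + 1) * n) && decide (j % (n + 1) = 0) &&
      x.testBit (j / (n + 1))) := by
  rcases Nat.eq_zero_or_pos n with rfl | hn
  · simp [spr, rp]
  unfold spr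
  rw [Nat.testBit_and, testBit_mul_rp hn hx, testBit_rp (by omega : 0 < n + 1)]
  by_cases h1 : j < (n + 1) * n
  · by_cases h2 : j % (n + 1) = 0
    · obtain ⟨c, rfl⟩ := Nat.dvd_of_mod_eq_zero h2
      have hc : c < n := Nat.lt_of_mul_lt_mul_left h1
      rw [Nat.mul_div_cancel_left _ (by omega : 0 < n + 1)]
      have h3 : (n + 1) * c < n * n := by nlinarith
      have h4 : (n + 1) * c % n = c := by
        rw [show (n + 1) * c = c + n * c by ring, Nat.add_mul_mod_self_left,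
          Nat.mod_eq_of_lt hc]
      simp [h3, h4, h1]
    · simp [h2]
  · simp [h1]

/-- fill the rows of a matrix whose only nonzero column is the first -/
theorem testBit_mul_full {W n : ℕ} (hW : 0 < W) (hn : n ≤ W) (S : ℕ)
    (hS : ∀ j, S.testBit j = true → j % W = 0) (j : ℕ) :
    (S * (2 ^ n - 1)).testBit j = (S.testBit (W * (j / W)) && decide (j % W < n)) := by
  induction j using Nat.strong_induction_on generalizing S with
  | _ j ih =>
    have h0 : S % 2 ^ W = (S.testBit 0).toNat := by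
      apply Nat.eq_of_testBit_eq
      intro i
      rw [Nat.testBit_mod_two_pow]
      by_cases hi : i < W
      · by_cases hi0 : i = 0
        · subst hi0
          cases hb : S.testBit 0 <;> simp [hW]
        · have h1 : S.testBit i = false := by
            by_contra hc
            have := hS i (by simpa using hc)
            rw [Nat.mod_eq_of_lt hi] at this
            exact hi0 this
          rw [h1]
          cases hb : S.testBit 0
          · simp
          · simp [testBit_one', hi0]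
      · have hi0 : i ≠ 0 := by omega
        cases hb : S.testBit 0
        · simp [hi]
        · simp [testBit_one', hi0, hi]
    have hdec : S * (2 ^ n - 1) = 2 ^ W * (S / 2 ^ W * (2 ^ n - 1)) + (S.testBit 0).toNat *
        (2 ^ n - 1) := by
      have := Nat.div_add_mod S (2 ^ W)
      rw [h0] at this
      conv_lhs => rw [← this]
      ring
    have hpow : 2 ^ n ≤ 2 ^ W := Nat.pow_le_pow_right (by norm_num) hn
    have hpos : 0 < 2 ^ n := by positivity
    have hlt : (S.testBit 0).toNat * (2 ^ n - 1) < 2 ^ W := by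
      cases S.testBit 0
      · simp
      · simp only [Bool.toNat_true, one_mul]; omega
    rw [hdec, Nat.testBit_two_pow_mul_add _ hlt]
    split_ifs with h
    · rw [Nat.div_eq_of_lt h, mul_zero, Nat.mod_eq_of_lt h]
      cases S.testBit 0
      · simp
      · simp [Nat.testBit_two_pow_sub_one]
    · have h1 : j / W = (j - W) / W + 1 := Nat.div_eq_sub_div hW (by omega)
      have h2 : (j - W) % W = j % W := by
        conv_rhs => rw [Nat.mod_eq_sub_mod (by omega : W ≤ j)]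
      rw [ih (j - W) (by omega) (S / 2 ^ W) ?_]
      · rw [h2]
        congr 1
        rw [Nat.testBit_div_two_pow]
        congr 1
        rw [h1]
        ring
      · intro i hi
        rw [Nat.testBit_div_two_pow] at hi
        have := hS _ hi
        rwa [Nat.add_mod_right] at this

/-- number of ones among the first `N` bits -/
def cnt (N x : ℕ) : ℕ := ∑ j ∈ Finset.range N, (x.testBit j).toNat

/-- sum of the first `k` digits to the base `2 ^ w` -/
def ds (w : ℕ) : ℕ → ℕ → ℕ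
  | 0, _ => 0
  | k + 1, x => x % 2 ^ w + ds w k (x / 2 ^ w)

theorem ds_one (N x : ℕ) : ds 1 N x = cnt N x := by
  unfold cnt
  induction N generalizing x with
  | zero => rfl
  | succ N ih =>
    rw [ds, ih, Finset.sum_range_succ']
    have h1 : x % 2 ^ 1 = (x.testBit 0).toNat := by
      rw [pow_one, Nat.testBit_zero]
      rcases Nat.mod_two_eq_zero_or_one x with h | h <;> simp [h]
    rw [h1, add_comm]
    congr 1
    refine Finset.sum_congr rfl (fun j _ => ?_)
    rw [Nat.testBit_div_two_pow]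

theorem ds_two (w k x : ℕ) : ds w (2 * (k + 1)) x =
    x % 2 ^ w + x / 2 ^ w % 2 ^ w + ds w (2 * k) (x / 2 ^ (2 * w)) := by
  rw [show 2 * (k + 1) = 2 * k + 1 + 1 by ring, ds, ds, Nat.div_div_eq_div_mul, ← pow_add,
    ← two_mul, add_assoc]

/-- add neighbouring fields -/
def mg (w m x : ℕ) : ℕ := (x &&& m) + ((x >>> w) &&& m)

theorem and_mask (w k x : ℕ) : x &&& ((2 ^ w - 1) * rr (2 * w) (k + 1)) =
    x % 2 ^ w + 2 ^ (2 * w) * (x / 2 ^ (2 * w) &&& ((2 ^ w - 1) * rr (2 * w) k)) := by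
  have hlt : x % 2 ^ w < 2 ^ (2 * w) := (Nat.mod_lt _ (by positivity)).trans_le
    (Nat.pow_le_pow_right (by norm_num) (by omega))
  have hm : 2 ^ w - 1 < 2 ^ (2 * w) := by
    have h1 : 2 ^ w ≤ 2 ^ (2 * w) := Nat.pow_le_pow_right (by norm_num) (by omega)
    have h2 : 0 < 2 ^ w := by positivity
    omega
  have hmask : (2 ^ w - 1) * rr (2 * w) (k + 1) =
      2 ^ (2 * w) * ((2 ^ w - 1) * rr (2 * w) k) + (2 ^ w - 1) := by
    rw [rr]; ring
  apply Nat.eq_of_testBit_eq
  intro j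
  rw [Nat.testBit_and, hmask, Nat.testBit_two_pow_mul_add _ hm,
    add_comm (x % 2 ^ w), Nat.testBit_two_pow_mul_add _ hlt]
  split_ifs with h
  · rw [Nat.testBit_two_pow_sub_one, Nat.testBit_mod_two_pow, Bool.and_comm]
  · rw [Nat.testBit_and, Nat.testBit_div_two_pow]
    congr 2
    omega

theorem ds_mg {w : ℕ} (hw : 1 ≤ w) (k x : ℕ) :
    ds (2 * w) k (mg w ((2 ^ w - 1) * rr (2 * w) k) x) = ds w (2 * k) x := by
  induction k generalizing x with
  | zero => simp [ds]
  | succ k ih =>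
    rw [ds_two, ← ih]
    unfold mg
    rw [and_mask, and_mask, ds]
    have hsm : x % 2 ^ w + (x >>> w) % 2 ^ w < 2 ^ (2 * w) := by
      have h1 : x % 2 ^ w < 2 ^ w := Nat.mod_lt _ (by positivity)
      have h2 : (x >>> w) % 2 ^ w < 2 ^ w := Nat.mod_lt _ (by positivity)
      have h3 : 2 * 2 ^ w ≤ 2 ^ (2 * w) := by
        rw [← pow_succ', two_mul]
        exact Nat.pow_le_pow_right (by norm_num) (by omega)
      omega
    have e : x % 2 ^ w + 2 ^ (2 * w) * (x / 2 ^ (2 * w) &&& ((2 ^ w - 1) * rr (2 * w) k)) +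
        ((x >>> w) % 2 ^ w + 2 ^ (2 * w) * ((x >>> w) / 2 ^ (2 * w) &&&
          ((2 ^ w - 1) * rr (2 * w) k))) =
        (x % 2 ^ w + (x >>> w) % 2 ^ w) + 2 ^ (2 * w) *
          ((x / 2 ^ (2 * w) &&& ((2 ^ w - 1) * rr (2 * w) k)) +
          ((x >>> w) / 2 ^ (2 * w) &&& ((2 ^ w - 1) * rr (2 * w) k))) := by ring
    rw [e, Nat.add_mul_mod_self_left, Nat.mod_eq_of_lt hsm,
      Nat.add_mul_div_left _ _ (by positivity), Nat.div_eq_of_lt hsm, zero_add,
      Nat.shiftRight_eq_div_pow, Nat.shiftRight_eq_div_pow, Nat.div_div_eq_div_mul,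
      Nat.div_div_eq_div_mul, mul_comm (2 ^ w) (2 ^ (2 * w))]

theorem ds_mod (w k x : ℕ) (hx : x < 2 ^ (w * k)) : x ≡ ds w k x [MOD (2 ^ w - 1)] := by
  induction k generalizing x with
  | zero =>
    have : x = 0 := by simpa using hx
    subst this
    rfl
  | succ k ih =>
    have h1 : x / 2 ^ w < 2 ^ (w * k) := by
      rw [Nat.div_lt_iff_lt_mul (by positivity), ← pow_add]
      rwa [Nat.mul_succ] at hx
    have h2 := ih _ h1
    rw [ds]
    have h3 : 2 ^ w ≡ 1 [MOD (2 ^ w - 1)] := by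
      have h4 : 1 ≤ 2 ^ w := Nat.one_le_two_pow
      have h5 : 2 ^ w = 1 + (2 ^ w - 1) := by omega
      conv_lhs => rw [h5]
      simp [Nat.ModEq]
    calc x = 2 ^ w * (x / 2 ^ w) + x % 2 ^ w := (Nat.div_add_mod _ _).symm
      _ ≡ 1 * (x / 2 ^ w) + x % 2 ^ w [MOD (2 ^ w - 1)] := (h3.mul_right _).add_right _
      _ = x % 2 ^ w + x / 2 ^ w := by ring
      _ ≡ _ [MOD (2 ^ w - 1)] := h2.add_left _

theorem mg_lt {w k x : ℕ} (hw : 1 ≤ w) : mg w ((2 ^ w - 1) * rr (2 * w) k) x <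
    2 ^ (2 * w * k) := by
  induction k generalizing x with
  | zero => simp [mg, rr]
  | succ k ih =>
    unfold mg at ih ⊢
    rw [and_mask, and_mask]
    have h1 : x % 2 ^ w < 2 ^ w := Nat.mod_lt _ (by positivity)
    have h2 : (x >>> w) % 2 ^ w < 2 ^ w := Nat.mod_lt _ (by positivity)
    have h3 : 2 * 2 ^ w ≤ 2 ^ (2 * w) := by
      rw [← pow_succ', two_mul]
      exact Nat.pow_le_pow_right (by norm_num) (by omega)
    have h4 := @ih (x / 2 ^ (2 * w))
    rw [Nat.shiftRight_eq_div_pow] at h4 ⊢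
    rw [Nat.div_div_eq_div_mul, mul_comm (2 ^ (2 * w)), ← Nat.div_div_eq_div_mul] at h4
    have h5 : 2 ^ (2 * w * (k + 1)) = 2 ^ (2 * w) * 2 ^ (2 * w * k) := by
      rw [← pow_add]; ring_nf
    rw [h5]
    set A := 2 ^ (2 * w) with hA
    set B := 2 ^ (2 * w * k) with hB
    set p := x / A &&& (2 ^ w - 1) * rr (2 * w) k
    set q := x / 2 ^ w / A &&& (2 ^ w - 1) * rr (2 * w) k
    have h6 : p + q + 1 ≤ B := h4
    have h7 : A * (p + q + 1) ≤ A * B := Nat.mul_le_mul_left _ h6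
    rw [Nat.shiftRight_eq_div_pow] at h2
    nlinarith

/-- fast number of ones -/
def pop (k x : ℕ) : ℕ :=
  mg 8 ((2 ^ (16 * k) - 1) / 257) (mg 4 ((2 ^ (16 * k) - 1) / 17) (mg 2 ((2 ^ (16 * k) - 1) / 5)
    (mg 1 ((2 ^ (16 * k) - 1) / 3) x))) % 65535

theorem mask_eq {w : ℕ} (hw : 1 ≤ w) (k : ℕ) :
    (2 ^ w - 1) * rr (2 * w) k = (2 ^ (2 * w * k) - 1) / (2 ^ w + 1) := by
  have h1 := rr_mul (2 * w) k
  have h2 : 2 ^ (2 * w) - 1 = (2 ^ w + 1) * (2 ^ w - 1) := by
    have h4 : 1 ≤ 2 ^ w := Nat.one_le_two_pow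
    have h5 : 1 ≤ 2 ^ (2 * w) := Nat.one_le_two_pow
    zify [h4, h5]
    rw [two_mul, pow_add]
    ring
  rw [h2, mul_assoc] at h1
  rw [← h1, Nat.mul_div_cancel_left _ (by positivity)]

theorem cnt_le (N x : ℕ) : cnt N x ≤ N := by
  unfold cnt
  calc ∑ j ∈ Finset.range N, (x.testBit j).toNat ≤ ∑ _j ∈ Finset.range N, 1 :=
        Finset.sum_le_sum (fun j _ => Bool.toNat_le _)
    _ = N := by simp

theorem pop_eq {k : ℕ} (hk : 16 * k < 65535) (x : ℕ) : pop k x = cnt (16 * k) x := by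
  have m1 : (2 ^ (16 * k) - 1) / 3 = (2 ^ 1 - 1) * rr (2 * 1) (8 * k) := by
    rw [mask_eq le_rfl]; congr 3; ring
  have m2 : (2 ^ (16 * k) - 1) / 5 = (2 ^ 2 - 1) * rr (2 * 2) (4 * k) := by
    rw [mask_eq (by norm_num)]; congr 3; ring
  have m4 : (2 ^ (16 * k) - 1) / 17 = (2 ^ 4 - 1) * rr (2 * 4) (2 * k) := by
    rw [mask_eq (by norm_num)]; congr 3; ring
  have m8 : (2 ^ (16 * k) - 1) / 257 = (2 ^ 8 - 1) * rr (2 * 8) k := by
    rw [mask_eq (by norm_num)]
    norm_num
  unfold pop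
  rw [m1, m2, m4, m8]
  set x1 := mg 1 ((2 ^ 1 - 1) * rr (2 * 1) (8 * k)) x with hx1
  set x2 := mg 2 ((2 ^ 2 - 1) * rr (2 * 2) (4 * k)) x1 with hx2
  set x3 := mg 4 ((2 ^ 4 - 1) * rr (2 * 4) (2 * k)) x2 with hx3
  set x4 := mg 8 ((2 ^ 8 - 1) * rr (2 * 8) k) x3 with hx4
  have e1 : ds (2 * 1) (8 * k) x1 = ds 1 (2 * (8 * k)) x := ds_mg le_rfl _ _
  have e2 : ds (2 * 2) (4 * k) x2 = ds 2 (2 * (4 * k)) x1 := ds_mg (by norm_num) _ _
  have e3 : ds (2 * 4) (2 * k) x3 = ds 4 (2 * (2 * k)) x2 := ds_mg (by norm_num) _ _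
  have e4 : ds (2 * 8) k x4 = ds 8 (2 * k) x3 := ds_mg (by norm_num) _ _
  have h : ds 16 k x4 = cnt (16 * k) x := by
    have e4' : ds 16 k x4 = ds 8 (2 * k) x3 := e4
    have e3' : ds 8 (2 * k) x3 = ds 4 (4 * k) x2 := by
      rw [show 4 * k = 2 * (2 * k) by ring]; exact e3
    have e2' : ds 4 (4 * k) x2 = ds 2 (8 * k) x1 := by
      rw [show 8 * k = 2 * (4 * k) by ring]; exact e2
    have e1' : ds 2 (8 * k) x1 = ds 1 (16 * k) x := by
      rw [show 16 * k = 2 * (8 * k) by ring]; exact e1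
    rw [e4', e3', e2', e1', ds_one]
  have hlt : x4 < 2 ^ (16 * k) := mg_lt (by norm_num)
  have h2 := ds_mod 16 k x4 hlt
  have h3 : x4 % 65535 = ds 16 k x4 % 65535 := h2
  rw [h3, h, Nat.mod_eq_of_lt]
  exact (cnt_le _ _).trans_lt hk

theorem cnt_matrix (n W x N : ℕ) (hn : n ≤ W) (hN : W * n ≤ N) :
    ∑ c ∈ Finset.range n, ∑ e ∈ Finset.range n, (x.testBit (W * c + e)).toNat ≤ cnt N x := by
  have h : ∀ m : ℕ, ∑ c ∈ Finset.range m, ∑ e ∈ Finset.range n, (x.testBit (W * c + e)).toNat ≤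
      cnt (W * m) x := by
    intro m
    induction m with
    | zero => simp
    | succ m ih =>
      rw [Finset.sum_range_succ, Nat.mul_succ]
      unfold cnt at ih ⊢
      rw [Finset.sum_range_add]
      refine Nat.add_le_add ih ?_
      exact Finset.sum_le_sum_of_subset (Finset.range_subset_range.mpr hn)
  refine (h n).trans ?_
  unfold cnt
  exact Finset.sum_le_sum_of_subset (Finset.range_subset_range.mpr hN)

end Pool.Agent.Y441.BP
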