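import Pool.Agent.Helper770.Blowup
import Pool.Agent.Y441.BP.Bits

/-!
# Checking the orientations of a blow-up pattern and counting its crossings with bit matrices
-/

set_option autoImplicit false

namespace Pool.Agent.Y441.BP

open Finset Pool.Agent.Helper770.Blowup Pool.Agent.Helper770.Blowup.Data

/-- entry of a list -/
def nth : List ℕ → ℕ → ℕ
  | [], _ => 0
  | x :: _, 0 => x
  | _ :: l, k + 1 => nth l k

/-- field number `v` of a packed vector -/
def fld (W P v : ℕ) : ℕ := (P >>> (W * v)) % 2 ^ W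

/-- packing -/
def pk (W n : ℕ) (f : ℕ → ℕ) : ℕ := ∑ u ∈ range n, f u * 2 ^ (W * u)

theorem pk_succ (W n : ℕ) (f : ℕ → ℕ) :
    pk W (n + 1) f = 2 ^ W * pk W n (fun u => f (u + 1)) + f 0 := by
  unfold pk
  rw [Finset.sum_range_succ', Finset.mul_sum]
  congr 1
  · refine Finset.sum_congr rfl (fun u _ => ?_)
    rw [Nat.mul_succ, pow_add]
    ring
  · simp

theorem pk_fld (W n P : ℕ) (hP : P < 2 ^ (W * n)) : pk W n (fld W P) = P := by
  induction n generalizing P with
  | zero =>
    have : P = 0 := by simpa using hP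
    simp [pk, this]
  | succ n ih =>
    rw [pk_succ]
    have h1 : P / 2 ^ W < 2 ^ (W * n) := by
      rw [Nat.div_lt_iff_lt_mul (by positivity), ← pow_add]
      rwa [Nat.mul_succ] at hP
    have h2 : (fun u => fld W P (u + 1)) = fld W (P / 2 ^ W) := by
      funext u
      unfold fld
      rw [Nat.shiftRight_eq_div_pow, Nat.shiftRight_eq_div_pow, Nat.div_div_eq_div_mul,
        ← pow_add, Nat.mul_succ, add_comm (W * u)]
    rw [h2, ih _ h1]
    have h3 : fld W P 0 = P % 2 ^ W := by simp [fld]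
    rw [h3]
    exact Nat.div_add_mod _ _

theorem pk_add (W n : ℕ) (f g : ℕ → ℕ) : pk W n f + pk W n g = pk W n (fun u => f u + g u) := by
  unfold pk
  rw [← Finset.sum_add_distrib]
  exact Finset.sum_congr rfl (fun u _ => by ring)

theorem pk_mul (W n c : ℕ) (f : ℕ → ℕ) : c * pk W n f = pk W n (fun u => c * f u) := by
  unfold pk
  rw [Finset.mul_sum]
  exact Finset.sum_congr rfl (fun u _ => by ring)

theorem rr_eq_pk (W n : ℕ) : rr W n = pk W n (fun _ => 1) := by
  induction n with
  | zero => simp [rr, pk]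
  | succ n ih => rw [rr, pk_succ, ih, add_comm]

theorem rp_eq_pk {W : ℕ} (hW : 0 < W) (n : ℕ) : rp W n = pk W n (fun _ => 1) := by
  rw [rp_eq hW, rr_eq_pk]

theorem pk_congr (W n : ℕ) {f g : ℕ → ℕ} (h : ∀ u < n, f u = g u) : pk W n f = pk W n g := by
  unfold pk
  exact Finset.sum_congr rfl (fun u hu => by rw [h u (Finset.mem_range.mp hu)])

theorem testBit_pk {W n : ℕ} {f : ℕ → ℕ} (hf : ∀ u < n, f u < 2 ^ W) {u t : ℕ} (hu : u < n)
    (ht : t < W) : (pk W n f).testBit (W * u + t) = (f u).testBit t := by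
  induction n generalizing f u with
  | zero => omega
  | succ n ih =>
    rw [pk_succ, Nat.testBit_two_pow_mul_add _ (hf 0 (by omega))]
    rcases u with _ | u
    · simp [ht]
    · rw [if_neg (by rw [Nat.mul_succ]; omega)]
      rw [show W * (u + 1) + t - W = W * u + t by rw [Nat.mul_succ]; omega]
      exact ih (f := fun u => f (u + 1)) (fun i hi => hf (i + 1) (by omega)) (by omega)

/-- Check of a row of the orientation table: the points `(a, b)` and `(c, d)`, the row `R`, the
columns in `E` are left out. -/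
def rowOk (n XP YP a b c d R E : ℕ) : Bool :=
  Nat.beq (((c * YP + b * XP + d * a * rp (n + 1) n + 2 ^ n * rp (n + 1) n -
      (c * b * rp (n + 1) n + a * YP + d * XP)) >>> n) &&& (rp (n + 1) n ^^^ E))
    (spr n R &&& (rp (n + 1) n ^^^ E)) &&
  Nat.beq (((c * YP + b * XP + d * a * rp (n + 1) n + 2 ^ n * rp (n + 1) n -
      (c * b * rp (n + 1) n + a * YP + d * XP) - rp (n + 1) n) >>> n) &&& (rp (n + 1) n ^^^ E))
    (spr n R &&& (rp (n + 1) n ^^^ E))

theorem sign_bit {n m : ℕ} (hm : m < 2 ^ (n + 1)) : m.testBit n = decide (2 ^ n ≤ m) := by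
  rw [Nat.testBit_eq_decide_div_mod_eq]
  rw [decide_eq_decide]
  have h1 : m / 2 ^ n < 2 := by
    rw [Nat.div_lt_iff_lt_mul (by positivity), ← pow_succ']
    exact hm
  rw [Nat.mod_eq_of_lt h1]
  constructor
  · intro h
    by_contra hc
    rw [Nat.div_eq_of_lt (by omega)] at h
    omega
  · intro h
    have : 1 ≤ m / 2 ^ n := (Nat.one_le_div_iff (by positivity)).mpr h
    omega

theorem rowOk_spec {n XP YP a b c d R E : ℕ} (hn : 42 ≤ n) {x y : ℕ → ℕ}
    (hX : XP = pk (n + 1) n x) (hY : YP = pk (n + 1) n y)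
    (hx : ∀ u < n, x u < 2 ^ 20) (hy : ∀ u < n, y u < 2 ^ 20)
    (ha : a < 2 ^ 20) (hb : b < 2 ^ 20) (hc : c < 2 ^ 20) (hd : d < 2 ^ 20) (hR : R < 2 ^ n)
    (h : rowOk n XP YP a b c d R E = true) {u : ℕ} (hu : u < n)
    (hE : E.testBit ((n + 1) * u) = false) :
    (R.testBit u = true ↔ c * b + a * y u + d * x u < c * y u + b * x u + d * a) ∧
      c * b + a * y u + d * x u ≠ c * y u + b * x u + d * a := by
  have hW : 0 < n + 1 := by omega
  have hmul : ∀ p q : ℕ, p < 2 ^ 20 → q < 2 ^ 20 → p * q < 2 ^ 40 := by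
    intro p q hp hq
    calc p * q < 2 ^ 20 * 2 ^ 20 := Nat.mul_lt_mul'' hp hq
      _ = 2 ^ 40 := by norm_num
  have hbig : 2 ^ 42 ≤ 2 ^ n := Nat.pow_le_pow_right (by norm_num) hn
  have hpn : 2 ^ (n + 1) = 2 * 2 ^ n := by rw [pow_succ']
  have hPu : ∀ u < n, c * y u + b * x u + d * a < 3 * 2 ^ 40 := by
    intro u hu
    have h1 := hmul c (y u) hc (hy u hu)
    have h2 := hmul b (x u) hb (hx u hu)
    have h3 := hmul d a hd ha
    omega
  have hQu : ∀ u < n, c * b + a * y u + d * x u < 3 * 2 ^ 40 := by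
    intro u hu
    have h1 := hmul c b hc hb
    have h2 := hmul a (y u) ha (hy u hu)
    have h3 := hmul d (x u) hd (hx u hu)
    omega
  set g : ℕ → ℕ := fun u => 2 ^ n + (c * y u + b * x u + d * a) - (c * b + a * y u + d * x u)
    with hg
  have e1 : c * YP + b * XP + d * a * rp (n + 1) n + 2 ^ n * rp (n + 1) n =
      pk (n + 1) n (fun u => c * y u + b * x u + d * a * 1 + 2 ^ n * 1) := by
    rw [hX, hY, rp_eq_pk hW, pk_mul, pk_mul, pk_mul, pk_mul, pk_add, pk_add, pk_add]
  have e2 : c * b * rp (n + 1) n + a * YP + d * XP =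
      pk (n + 1) n (fun u => c * b * 1 + a * y u + d * x u) := by
    rw [hX, hY, rp_eq_pk hW, pk_mul, pk_mul, pk_mul, pk_add, pk_add]
  have e3 : c * YP + b * XP + d * a * rp (n + 1) n + 2 ^ n * rp (n + 1) n -
      (c * b * rp (n + 1) n + a * YP + d * XP) = pk (n + 1) n g := by
    rw [e1, e2]
    apply Nat.sub_eq_of_eq_add
    rw [pk_add]
    apply pk_congr
    intro u hu
    have h2 := hQu u hu
    simp only [hg]
    omega
  have hg1 : ∀ u < n, 1 ≤ g u := by
    intro u hu
    have h2 := hQu u hu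
    simp only [hg]
    omega
  have e4 : pk (n + 1) n g - rp (n + 1) n = pk (n + 1) n (fun u => g u - 1) := by
    rw [rp_eq_pk hW]
    apply Nat.sub_eq_of_eq_add
    rw [pk_add]
    apply pk_congr
    intro u hu
    have := hg1 u hu
    omega
  have hgW : ∀ u < n, g u < 2 ^ (n + 1) := by
    intro u hu
    have h1 := hPu u hu
    simp only [hg]
    omega
  unfold rowOk at h
  rw [Bool.and_eq_true, Nat.beq_eq, Nat.beq_eq, e3, e4] at h
  obtain ⟨h1, h2⟩ := h
  have hM : (rp (n + 1) n ^^^ E).testBit ((n + 1) * u) = true := by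
    rw [Nat.testBit_xor, testBit_rp hW, hE]
    have : (n + 1) * u < (n + 1) * n := Nat.mul_lt_mul_of_pos_left hu hW
    simp [this]
  have hS : (spr n R).testBit ((n + 1) * u) = R.testBit u := by
    rw [testBit_spr hR, Nat.mul_div_cancel_left _ hW]
    have : (n + 1) * u < (n + 1) * n := Nat.mul_lt_mul_of_pos_left hu hW
    simp [this]
  have k1 := congrArg (fun z => Nat.testBit z ((n + 1) * u)) h1
  have k2 := congrArg (fun z => Nat.testBit z ((n + 1) * u)) h2
  simp only [Nat.testBit_and, hM, Bool.and_true, Nat.testBit_shiftRight, hS] at k1 k2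
  rw [add_comm n ((n + 1) * u), testBit_pk hgW hu (Nat.lt_succ_self n), sign_bit (hgW u hu)] at k1
  rw [add_comm n ((n + 1) * u), testBit_pk (f := fun u => g u - 1)
    (fun i hi => lt_of_le_of_lt (Nat.sub_le _ _) (hgW i hi)) hu (Nat.lt_succ_self n),
    sign_bit (lt_of_le_of_lt (Nat.sub_le _ _) (hgW u hu))] at k2
  have h5 := hQu u hu
  have h6 : (2 ^ n ≤ g u) ↔ c * b + a * y u + d * x u ≤ c * y u + b * x u + d * a := by
    simp only [hg]; omega
  have h7 : (2 ^ n ≤ g u - 1) ↔ c * b + a * y u + d * x u < c * y u + b * x u + d * a := by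
    simp only [hg]; omega
  have r1 : R.testBit u = true ↔ c * b + a * y u + d * x u ≤ c * y u + b * x u + d * a := by
    rw [← k1, decide_eq_true_iff]
    exact h6
  have r2 : R.testBit u = true ↔ c * b + a * y u + d * x u < c * y u + b * x u + d * a := by
    rw [← k2, decide_eq_true_iff]
    exact h7
  refine ⟨r2, fun he => ?_⟩
  have := r2.mp (r1.mpr he.le)
  omega

/-- row `(v, w)` of a table -/
def row (n : ℕ) (T : List ℕ) (v w : ℕ) : ℕ := (nth T v >>> ((n + 1) * w)) % 2 ^ n

/-- one bit -/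
def bt (x i : ℕ) : ℕ := (x >>> i) % 2

/-- check of the row `(v, w)` -/
def pairOk (n XP YP UP VP : ℕ) (T : List ℕ) (v w : ℕ) : Bool :=
  bif Nat.beq v w then
    rowOk n XP YP (fld (n + 1) XP v) (fld (n + 1) YP v) (fld (n + 1) UP v) (fld (n + 1) VP v)
      (row n T v v) (1 <<< ((n + 1) * v)) && Nat.beq (bt (row n T v v) v) 1
  else
    rowOk n XP YP (fld (n + 1) XP v) (fld (n + 1) YP v) (fld (n + 1) XP w) (fld (n + 1) YP w)
      (row n T v w) ((1 <<< ((n + 1) * v)) ||| (1 <<< ((n + 1) * w))) &&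
    (Nat.beq (bt (row n T v w) v + bt (row n T v v) w) 1 &&
      Nat.beq (bt (row n T v w) w) (bt (row n T w w) v))

/-- the data of a plane -/
def mkData (n XP YP UP VP : ℕ) : Data n where
  bx v := (fld (n + 1) XP v : ℤ)
  cy v := (fld (n + 1) YP v : ℤ)
  dx v := (fld (n + 1) UP v : ℤ) - (fld (n + 1) XP v : ℤ)
  dy v := (fld (n + 1) VP v : ℤ) - (fld (n + 1) YP v : ℤ)

/-- loops -/
def allTo : ℕ → (ℕ → Bool) → Bool
  | 0, _ => true
  | k + 1, f => f k && allTo k f

theorem allTo_spec {k : ℕ} {f : ℕ → Bool} (h : allTo k f = true) : ∀ i < k, f i = true := by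
  induction k with
  | zero => intro i hi; omega
  | succ k ih =>
    rw [allTo, Bool.and_eq_true] at h
    intro i hi
    rcases Nat.lt_succ_iff_lt_or_eq.mp hi with h1 | rfl
    · exact ih h.2 i h1
    · exact h.1

/-- all coordinates are small -/
def smallOk (n P : ℕ) : Bool :=
  Nat.blt P (2 ^ ((n + 1) * n)) && allTo n (fun v => Nat.blt (fld (n + 1) P v) 1048576)

theorem smallOk_spec {n P : ℕ} (h : smallOk n P = true) :
    P < 2 ^ ((n + 1) * n) ∧ ∀ v < n, fld (n + 1) P v < 2 ^ 20 := by
  unfold smallOk at h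
  rw [Bool.and_eq_true] at h
  refine ⟨by simpa [Nat.blt_eq] using h.1, fun v hv => ?_⟩
  have := allTo_spec h.2 v hv
  simpa [Nat.blt_eq] using this

theorem testBit_one_shiftLeft (k j : ℕ) : (1 <<< k).testBit j = decide (j = k) := by
  rw [Nat.testBit_shiftLeft, testBit_one']
  by_cases h : j = k
  · subst h; simp
  · by_cases h2 : k ≤ j
    · have : j - k ≠ 0 := by omega
      simp [this, h]
    · simp [h2, h]

theorem bt_eq (x i : ℕ) : bt x i = (x.testBit i).toNat := by
  unfold bt
  rw [Nat.testBit_eq_decide_div_mod_eq, Nat.shiftRight_eq_div_pow]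
  rcases Nat.mod_two_eq_zero_or_one (x / 2 ^ i) with h | h <;> simp [h]

theorem row_lt (n : ℕ) (T : List ℕ) (v w : ℕ) : row n T v w < 2 ^ n := Nat.mod_lt _ (by positivity)

theorem testBit_row (n : ℕ) (T : List ℕ) (v w : ℕ) {u : ℕ} (hu : u < n) :
    (row n T v w).testBit u = (nth T v).testBit ((n + 1) * w + u) := by
  unfold row
  rw [Nat.testBit_mod_two_pow, Nat.testBit_shiftRight]
  simp [hu]

/-- what the check of the rows gives -/
theorem table_spec {n XP YP UP VP : ℕ} {T : List ℕ} (hn : 42 ≤ n)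
    (hX : smallOk n XP = true) (hY : smallOk n YP = true)
    (hU : smallOk n UP = true) (hV : smallOk n VP = true)
    (h : ∀ v < n, ∀ w < n, pairOk n XP YP UP VP T v w = true) :
    (mkData n XP YP UP VP).Ok ∧ ∀ v w u : Fin n, (mkData n XP YP UP VP).o v w u =
      (nth T v).testBit ((n + 1) * w + u) := by
  obtain ⟨hX1, hX2⟩ := smallOk_spec hX
  obtain ⟨hY1, hY2⟩ := smallOk_spec hY
  obtain ⟨hU1, hU2⟩ := smallOk_spec hU
  obtain ⟨hV1, hV2⟩ := smallOk_spec hV
  have eX := (pk_fld _ _ _ hX1).symm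
  have eY := (pk_fld _ _ _ hY1).symm
  have hW : 0 < n + 1 := by omega
  have key1 : ∀ v w u : Fin n, v ≠ w → u ≠ v → u ≠ w →
      ((row n T v w).testBit u = true ↔ 0 < (mkData n XP YP UP VP).oz v w u) ∧
        (mkData n XP YP UP VP).oz v w u ≠ 0 := by
    intro v w u h1 h2 h3
    have hp := h v v.2 w w.2
    have hvw : (v : ℕ) ≠ w := fun e => h1 (Fin.ext e)
    unfold pairOk at hp
    rw [show Nat.beq (v : ℕ) w = false from
      Bool.eq_false_iff.mpr (fun h => hvw (Nat.eq_of_beq_eq_true h)), cond_false,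
      Bool.and_eq_true] at hp
    have hE : ((1 <<< ((n + 1) * (v : ℕ))) ||| (1 <<< ((n + 1) * (w : ℕ)))).testBit
        ((n + 1) * (u : ℕ)) = false := by
      rw [Nat.testBit_or, testBit_one_shiftLeft, testBit_one_shiftLeft]
      have h4 : (n + 1) * (u : ℕ) ≠ (n + 1) * (v : ℕ) := fun e =>
        h2 (Fin.ext (Nat.eq_of_mul_eq_mul_left hW e))
      have h5 : (n + 1) * (u : ℕ) ≠ (n + 1) * (w : ℕ) := fun e =>
        h3 (Fin.ext (Nat.eq_of_mul_eq_mul_left hW e))
      simp [h4, h5]
    have hs := rowOk_spec hn eX eY hX2 hY2 (hX2 v v.2) (hY2 v v.2) (hX2 w w.2) (hY2 w w.2)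
      (row_lt n T v w) hp.1 u.2 hE
    have e : (mkData n XP YP UP VP).oz v w u =
        ((fld (n + 1) XP w * fld (n + 1) YP u + fld (n + 1) YP v * fld (n + 1) XP u +
          fld (n + 1) YP w * fld (n + 1) XP v : ℕ) : ℤ) -
        ((fld (n + 1) XP w * fld (n + 1) YP v + fld (n + 1) XP v * fld (n + 1) YP u +
          fld (n + 1) YP w * fld (n + 1) XP u : ℕ) : ℤ) := by
      unfold Data.oz mkData
      push_cast
      ring
    rw [e]
    constructor
    · rw [hs.1, sub_pos, Nat.cast_lt]
    · rw [sub_ne_zero]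
      exact fun e2 => hs.2 (Nat.cast_injective e2).symm
  have key2 : ∀ v u : Fin n, u ≠ v →
      ((row n T v v).testBit u = true ↔ 0 < (mkData n XP YP UP VP).sz v u) ∧
        (mkData n XP YP UP VP).sz v u ≠ 0 := by
    intro v u h2
    have hp := h v v.2 v v.2
    unfold pairOk at hp
    rw [show Nat.beq (v : ℕ) v = true from Nat.beq_refl _, cond_true, Bool.and_eq_true] at hp
    have hE : (1 <<< ((n + 1) * (v : ℕ))).testBit ((n + 1) * (u : ℕ)) = false := by
      rw [testBit_one_shiftLeft]
      have h4 : (n + 1) * (u : ℕ) ≠ (n + 1) * (v : ℕ) := fun e =>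
        h2 (Fin.ext (Nat.eq_of_mul_eq_mul_left hW e))
      simp [h4]
    have hs := rowOk_spec hn eX eY hX2 hY2 (hX2 v v.2) (hY2 v v.2) (hU2 v v.2) (hV2 v v.2)
      (row_lt n T v v) hp.1 u.2 hE
    have e : (mkData n XP YP UP VP).sz v u =
        ((fld (n + 1) UP v * fld (n + 1) YP u + fld (n + 1) YP v * fld (n + 1) XP u +
          fld (n + 1) VP v * fld (n + 1) XP v : ℕ) : ℤ) -
        ((fld (n + 1) UP v * fld (n + 1) YP v + fld (n + 1) XP v * fld (n + 1) YP u +
          fld (n + 1) VP v * fld (n + 1) XP u : ℕ) : ℤ) := by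
      unfold Data.sz mkData
      push_cast
      ring
    rw [e]
    constructor
    · rw [hs.1, sub_pos, Nat.cast_lt]
    · rw [sub_ne_zero]
      exact fun e2 => hs.2 (Nat.cast_injective e2).symm
  refine ⟨⟨fun v w u h1 h2 h3 => (key1 v w u h1 h2 h3).2, fun v w h1 => (key2 v w h1.symm).2⟩, ?_⟩
  intro v w u
  rw [← testBit_row n T v w u.2]
  have hp := h v v.2 w w.2
  have hpv := h v v.2 v v.2
  unfold pairOk at hp hpv
  rw [show Nat.beq (v : ℕ) v = true from Nat.beq_refl _, cond_true, Bool.and_eq_true] at hpv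
  unfold Data.o
  by_cases h1 : v = w
  · subst h1
    rw [if_pos rfl]
    by_cases h2 : v = u
    · subst h2
      rw [if_pos rfl]
      have := hpv.2
      rw [Nat.beq_eq, bt_eq] at this
      exact (Bool.toNat_eq_one.mp this).symm
    · rw [if_neg h2]
      have := (key2 v u (Ne.symm h2)).1
      rw [Bool.eq_iff_iff, decide_eq_true_iff]
      exact this.symm
  · have hvw : (v : ℕ) ≠ w := fun e => h1 (Fin.ext e)
    rw [show Nat.beq (v : ℕ) w = false from
      Bool.eq_false_iff.mpr (fun h => hvw (Nat.eq_of_beq_eq_true h)), cond_false,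
      Bool.and_eq_true, Bool.and_eq_true, Nat.beq_eq, Nat.beq_eq, bt_eq, bt_eq, bt_eq, bt_eq] at hp
    obtain ⟨-, hp1, hp2⟩ := hp
    rw [if_neg h1]
    by_cases h2 : v = u
    · subst h2
      rw [if_pos rfl]
      have h3 := key2 v w (Ne.symm h1)
      rw [Bool.eq_iff_iff, decide_eq_true_iff]
      cases hb : (row n T v w).testBit v <;> cases hb2 : (row n T v v).testBit w <;>
        rw [hb, hb2] at hp1 <;> simp at hp1
      · have h4 := h3.1.mp hb2
        simp only [Bool.false_eq_true, iff_false, not_lt]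
        exact h4.le
      · rw [hb2] at h3
        simp only [Bool.false_eq_true, false_iff, not_lt] at h3
        simp only [iff_true]
        exact lt_of_le_of_ne h3.1 h3.2
    · rw [if_neg h2]
      by_cases h3 : w = u
      · subst h3
        rw [if_pos rfl]
        have h4 := key2 w v h1
        have h5 : (row n T v w).testBit w = (row n T w w).testBit v := by
          cases hb : (row n T v w).testBit w <;> cases hb2 : (row n T w w).testBit v <;>
            rw [hb, hb2] at hp2 <;> simp at hp2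
        rw [h5, Bool.eq_iff_iff, decide_eq_true_iff]
        exact h4.1.symm
      · rw [if_neg h3, Bool.eq_iff_iff, decide_eq_true_iff]
        exact (key1 v w u h1 (Ne.symm h2) (Ne.symm h3)).1.symm

/-! ### Counting -/

/-- replicate a row -/
def rep (n R : ℕ) : ℕ := R * rp (n + 1) n

/-- spread a row over the first columns and fill the rows -/
def fil (n R : ℕ) : ℕ := spr n R * (2 ^ n - 1)

/-- pairing 01|23 -/
def c0 (K S Rr Ta Tb b : ℕ) : ℕ := b * (K &&& ((S ^^^ Rr) &&& (Ta ^^^ Tb)))

/-- pairing 02|13 -/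
def c1 (F S Rr Ta Tb kca krb : ℕ) : ℕ :=
  (kca &&& krb) &&& ((F ^^^ (S ^^^ Ta)) &&& (F ^^^ (Rr ^^^ Tb)))

/-- pairing 03|12 -/
def c2 (S Rr Ta Tb kra kcb : ℕ) : ℕ := (kra &&& kcb) &&& ((Rr ^^^ Ta) &&& (S ^^^ Tb))

/-- row of the colour matrix -/
def krow (n K a : ℕ) : ℕ := (K >>> ((n + 1) * a)) % 2 ^ n

/-- count for the first two clusters `a`, `b` -/
def pr (n k : ℕ) (T : List ℕ) (K a b : ℕ) : ℕ :=
  pop k (c0 K (fil n (row n T a b)) (rep n (row n T a b)) (nth T a) (nth T b)
    (bt (krow n K a) b)) +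
  (pop k (c1 (rp (n + 1) n * (2 ^ n - 1)) (fil n (row n T a b)) (rep n (row n T a b)) (nth T a)
    (nth T b) (fil n (krow n K a)) (rep n (krow n K b))) +
  pop k (c2 (fil n (row n T a b)) (rep n (row n T a b)) (nth T a) (nth T b)
    (rep n (krow n K a)) (fil n (krow n K b))))

theorem testBit_rep {n R c e : ℕ} (hR : R < 2 ^ n) (hc : c < n) (he : e < n) :
    (rep n R).testBit ((n + 1) * c + e) = R.testBit e := by
  unfold rep
  have h0 : R < 2 ^ (n + 1) := hR.trans (Nat.pow_lt_pow_right (by norm_num) (by omega))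
  rw [testBit_mul_rp (by omega) h0, Nat.mul_add_mod, Nat.mod_eq_of_lt (by omega : e < n + 1)]
  have : (n + 1) * c + e < (n + 1) * n := by nlinarith
  simp [this]

theorem testBit_fil {n R c e : ℕ} (hR : R < 2 ^ n) (hc : c < n) (he : e < n) :
    (fil n R).testBit ((n + 1) * c + e) = R.testBit c := by
  unfold fil
  rw [testBit_mul_full (W := n + 1) (by omega) (by omega) _ (by
    intro j hj
    rw [testBit_spr hR] at hj
    simp only [Bool.and_eq_true, decide_eq_true_eq] at hj
    exact hj.1.2)]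
  rw [Nat.mul_add_mod, Nat.mod_eq_of_lt (by omega : e < n + 1), Nat.mul_add_div (by omega),
    Nat.div_eq_of_lt (by omega : e < n + 1), add_zero, testBit_spr hR,
    Nat.mul_div_cancel_left _ (by omega : 0 < n + 1)]
  have : (n + 1) * c < (n + 1) * n := by nlinarith
  simp [this, he]

theorem testBit_F {n c e : ℕ} (hc : c < n) (he : e < n) :
    (rp (n + 1) n * (2 ^ n - 1)).testBit ((n + 1) * c + e) = true := by
  rw [testBit_mul_full (W := n + 1) (by omega) (by omega) _ (by
    intro j hj
    rw [testBit_rp (by omega)] at hj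
    simp only [Bool.and_eq_true, decide_eq_true_eq] at hj
    exact hj.2)]
  rw [Nat.mul_add_mod, Nat.mod_eq_of_lt (by omega : e < n + 1), Nat.mul_add_div (by omega),
    Nat.div_eq_of_lt (by omega : e < n + 1), add_zero, testBit_rp (by omega)]
  have : (n + 1) * c < (n + 1) * n := by nlinarith
  simp [this, he]

theorem krow_lt (n K a : ℕ) : krow n K a < 2 ^ n := Nat.mod_lt _ (by positivity)

theorem testBit_krow {n K a c : ℕ} (hc : c < n) :
    (krow n K a).testBit c = K.testBit ((n + 1) * a + c) := by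
  unfold krow
  rw [Nat.testBit_mod_two_pow, Nat.testBit_shiftRight]
  simp [hc]

theorem pop_matrix {n k x : ℕ} (hk : 16 * k < 65535) (hnk : (n + 1) * n ≤ 16 * k)
    (P : ℕ → ℕ → Prop) [∀ c e, Decidable (P c e)]
    (h : ∀ c < n, ∀ e < n, P c e → x.testBit ((n + 1) * c + e) = true) :
    ∑ c ∈ range n, ∑ e ∈ range n, (if P c e then 1 else 0) ≤ pop k x := by
  rw [pop_eq hk]
  refine le_trans ?_ (cnt_matrix n (n + 1) x (16 * k) (by omega) hnk)
  refine Finset.sum_le_sum (fun c hc => Finset.sum_le_sum (fun e he => ?_))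
  rw [mem_range] at hc he
  split_ifs with hP
  · rw [h c hc e he hP]; simp
  · exact Nat.zero_le _

theorem count_le {n k : ℕ} (hk : 16 * k < 65535) (hnk : (n + 1) * n ≤ 16 * k) (D : Data n)
    (T : List ℕ) (K : ℕ) (col : Fin n → Fin n → Bool) (p : Bool)
    (ho : ∀ v w u : Fin n, D.o v w u = (nth T v).testBit ((n + 1) * w + u))
    (hc : ∀ v w : Fin n, (col v w = p) ↔ K.testBit ((n + 1) * v + w) = true) :
    (T0 D col p).card + (T1 D col p).card + (T2 D col p).card ≤
      ∑ a ∈ range n, ∑ b ∈ range n, pr n k T K a b := by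
  classical
  have hb : ∀ a b : Fin n,
      (∑ c : Fin n, ∑ e : Fin n, (if (col a b = p ∧ col c e = p ∧ D.o a b c ≠ D.o a b e ∧
          D.o a c e ≠ D.o b c e) then 1 else 0)) +
      (∑ c : Fin n, ∑ e : Fin n, (if (col a c = p ∧ col b e = p ∧ D.o a b c = D.o a c e ∧
          D.o a b e = D.o b c e) then 1 else 0)) +
      (∑ c : Fin n, ∑ e : Fin n, (if (col a e = p ∧ col b c = p ∧ D.o a b e ≠ D.o a c e ∧
          D.o a b c ≠ D.o b c e) then 1 else 0)) ≤ pr n k T K a b := by
    intro a b
    have hR : ∀ c < n, (row n T a b).testBit c = (nth T a).testBit ((n + 1) * b + c) :=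
      fun c hc => testBit_row n T a b hc
    unfold pr
    rw [add_assoc]
    refine Nat.add_le_add ?_ (Nat.add_le_add ?_ ?_)
    · have := pop_matrix (n := n) (k := k) (x := c0 K (fil n (row n T a b)) (rep n (row n T a b))
        (nth T a) (nth T b) (bt (krow n K a) b)) hk hnk
        (fun c e => K.testBit ((n + 1) * a + b) = true ∧ K.testBit ((n + 1) * c + e) = true ∧
          (nth T a).testBit ((n + 1) * b + c) ≠ (nth T a).testBit ((n + 1) * b + e) ∧
          (nth T a).testBit ((n + 1) * c + e) ≠ (nth T b).testBit ((n + 1) * c + e)) (by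
          intro c hc' e he ⟨h1, h2, h3, h4⟩
          unfold c0
          rw [bt_eq, testBit_krow b.2, h1]
          simp only [Bool.toNat_true, one_mul, Nat.testBit_and, Nat.testBit_xor,
            testBit_fil (row_lt n T a b) hc' he, testBit_rep (row_lt n T a b) hc' he, hR c hc',
            hR e he, h2, Bool.true_and, Bool.and_eq_true]
          exact ⟨by simpa using h3, by simpa using h4⟩)
      refine le_trans (le_of_eq ?_) this
      rw [Finset.sum_range]
      refine Finset.sum_congr rfl (fun c _ => ?_)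
      rw [Finset.sum_range]
      refine Finset.sum_congr rfl (fun e _ => ?_)
      simp only [hc, ho]
    · have := pop_matrix (n := n) (k := k) (x := c1 (rp (n + 1) n * (2 ^ n - 1))
        (fil n (row n T a b)) (rep n (row n T a b)) (nth T a)
        (nth T b) (fil n (krow n K a)) (rep n (krow n K b))) hk hnk
        (fun c e => K.testBit ((n + 1) * a + c) = true ∧ K.testBit ((n + 1) * b + e) = true ∧
          (nth T a).testBit ((n + 1) * b + c) = (nth T a).testBit ((n + 1) * c + e) ∧
          (nth T a).testBit ((n + 1) * b + e) = (nth T b).testBit ((n + 1) * c + e)) (by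
          intro c hc' e he ⟨h1, h2, h3, h4⟩
          unfold c1
          simp only [Nat.testBit_and, Nat.testBit_xor, testBit_F hc' he,
            testBit_fil (row_lt n T a b) hc' he, testBit_rep (row_lt n T a b) hc' he, hR c hc',
            testBit_fil (krow_lt n K a) hc' he, testBit_rep (krow_lt n K b) hc' he,
            testBit_krow hc', testBit_krow he, hR e he, h1, h2, h3, h4]
          simp)
      refine le_trans (le_of_eq ?_) this
      rw [Finset.sum_range]
      refine Finset.sum_congr rfl (fun c _ => ?_)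
      rw [Finset.sum_range]
      refine Finset.sum_congr rfl (fun e _ => ?_)
      simp only [hc, ho]
    · have := pop_matrix (n := n) (k := k) (x := c2 (fil n (row n T a b)) (rep n (row n T a b))
        (nth T a) (nth T b) (rep n (krow n K a)) (fil n (krow n K b))) hk hnk
        (fun c e => K.testBit ((n + 1) * a + e) = true ∧ K.testBit ((n + 1) * b + c) = true ∧
          (nth T a).testBit ((n + 1) * b + e) ≠ (nth T a).testBit ((n + 1) * c + e) ∧
          (nth T a).testBit ((n + 1) * b + c) ≠ (nth T b).testBit ((n + 1) * c + e)) (by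
          intro c hc' e he ⟨h1, h2, h3, h4⟩
          unfold c2
          simp only [Nat.testBit_and, Nat.testBit_xor,
            testBit_fil (row_lt n T a b) hc' he, testBit_rep (row_lt n T a b) hc' he, hR c hc',
            testBit_fil (krow_lt n K b) hc' he, testBit_rep (krow_lt n K a) hc' he,
            testBit_krow hc', testBit_krow he, hR e he, h1, h2, Bool.true_and, Bool.and_eq_true]
          exact ⟨by simpa using h3, by simpa using h4⟩)
      refine le_trans (le_of_eq ?_) this
      rw [Finset.sum_range]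
      refine Finset.sum_congr rfl (fun c _ => ?_)
      rw [Finset.sum_range]
      refine Finset.sum_congr rfl (fun e _ => ?_)
      simp only [hc, ho]
  unfold T0 T1 T2
  rw [Finset.card_filter, Finset.card_filter, Finset.card_filter, Finset.sum_range]
  simp only [Fintype.sum_prod_type]
  rw [← Finset.sum_add_distrib, ← Finset.sum_add_distrib]
  refine Finset.sum_le_sum (fun a _ => ?_)
  rw [← Finset.sum_add_distrib, ← Finset.sum_add_distrib, Finset.sum_range]
  exact Finset.sum_le_sum (fun b _ => hb a b)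

/-- computable sums -/
def sumTo : ℕ → (ℕ → ℕ) → ℕ
  | 0, _ => 0
  | k + 1, f => sumTo k f + f k

theorem sumTo_eq (n : ℕ) (f : ℕ → ℕ) : sumTo n f = ∑ i ∈ range n, f i := by
  induction n with
  | zero => rfl
  | succ k ih => rw [Finset.sum_range_succ, ← ih]; rfl

/-- the part `lo ≤ a < lo + len` of the count -/
def blk (n k : ℕ) (T : List ℕ) (K lo len : ℕ) : ℕ :=
  sumTo len (fun i => sumTo n (fun b => pr n k T K (lo + i) b))

/-- the part `lo ≤ v < lo + len` of the check of the table -/
def chk (n XP YP UP VP : ℕ) (T : List ℕ) (lo len : ℕ) : Bool :=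
  allTo len (fun i => allTo n (fun w => pairOk n XP YP UP VP T (lo + i) w))

theorem chk_spec {n XP YP UP VP : ℕ} {T : List ℕ} {lo len : ℕ}
    (h : chk n XP YP UP VP T lo len = true) :
    ∀ v, lo ≤ v → v < lo + len → ∀ w < n, pairOk n XP YP UP VP T v w = true := by
  intro v h1 h2 w hw
  have := allTo_spec (allTo_spec h (v - lo) (by omega)) w hw
  rwa [show lo + (v - lo) = v by omega] at this

theorem blk_eq (n k : ℕ) (T : List ℕ) (K lo len : ℕ) :
    blk n k T K lo len = ∑ i ∈ range len, ∑ b ∈ range n, pr n k T K (lo + i) b := by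
  unfold blk
  rw [sumTo_eq]
  exact Finset.sum_congr rfl (fun i _ => sumTo_eq _ _)

end Pool.Agent.Y441.BP
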