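import Pool.Agent.Y441.BP.D128

/-!
# A blow-up pattern with 128 clusters: checks for plane 0
-/

set_option autoImplicit false

namespace Pool.Agent.Y441.BP.D128P0

open Pool.Agent.Y441.BP Pool.Agent.Y441.BP.D128

theorem sX : smallOk 128 X0 = true := by decide +kernel

theorem sY : smallOk 128 Y0 = true := by decide +kernel

theorem sU : smallOk 128 U0 = true := by decide +kernel

theorem sV : smallOk 128 V0 = true := by decide +kernel

theorem c0 : chk 128 X0 Y0 U0 V0 T0 0 8 = true := by decide +kernel

theorem c1 : chk 128 X0 Y0 U0 V0 T0 8 8 = true := by decide +kernel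

theorem c2 : chk 128 X0 Y0 U0 V0 T0 16 8 = true := by decide +kernel

theorem c3 : chk 128 X0 Y0 U0 V0 T0 24 8 = true := by decide +kernel

theorem c4 : chk 128 X0 Y0 U0 V0 T0 32 8 = true := by decide +kernel

theorem c5 : chk 128 X0 Y0 U0 V0 T0 40 8 = true := by decide +kernel

theorem c6 : chk 128 X0 Y0 U0 V0 T0 48 8 = true := by decide +kernel

theorem c7 : chk 128 X0 Y0 U0 V0 T0 56 8 = true := by decide +kernel

theorem c8 : chk 128 X0 Y0 U0 V0 T0 64 8 = true := by decide +kernel

theorem c9 : chk 128 X0 Y0 U0 V0 T0 72 8 = true := by decide +kernel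

theorem c10 : chk 128 X0 Y0 U0 V0 T0 80 8 = true := by decide +kernel

theorem c11 : chk 128 X0 Y0 U0 V0 T0 88 8 = true := by decide +kernel

theorem c12 : chk 128 X0 Y0 U0 V0 T0 96 8 = true := by decide +kernel

theorem c13 : chk 128 X0 Y0 U0 V0 T0 104 8 = true := by decide +kernel

theorem c14 : chk 128 X0 Y0 U0 V0 T0 112 8 = true := by decide +kernel

theorem c15 : chk 128 X0 Y0 U0 V0 T0 120 8 = true := by decide +kernel

theorem b0 : blk 128 1032 T0 K0 0 8 = 774236 := by decide +kernel

theorem b1 : blk 128 1032 T0 K0 8 8 = 806541 := by decide +kernel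

theorem b2 : blk 128 1032 T0 K0 16 8 = 821275 := by decide +kernel

theorem b3 : blk 128 1032 T0 K0 24 8 = 845150 := by decide +kernel

theorem b4 : blk 128 1032 T0 K0 32 8 = 849636 := by decide +kernel

theorem b5 : blk 128 1032 T0 K0 40 8 = 834514 := by decide +kernel

theorem b6 : blk 128 1032 T0 K0 48 8 = 973094 := by decide +kernel

theorem b7 : blk 128 1032 T0 K0 56 8 = 901921 := by decide +kernel

theorem b8 : blk 128 1032 T0 K0 64 8 = 871465 := by decide +kernel

theorem b9 : blk 128 1032 T0 K0 72 8 = 829295 := by decide +kernel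

theorem b10 : blk 128 1032 T0 K0 80 8 = 1103728 := by decide +kernel

theorem b11 : blk 128 1032 T0 K0 88 8 = 937811 := by decide +kernel

theorem b12 : blk 128 1032 T0 K0 96 8 = 889325 := by decide +kernel

theorem b13 : blk 128 1032 T0 K0 104 8 = 680646 := by decide +kernel

theorem b14 : blk 128 1032 T0 K0 112 8 = 616695 := by decide +kernel

theorem b15 : blk 128 1032 T0 K0 120 8 = 741024 := by decide +kernel

end Pool.Agent.Y441.BP.D128P0
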