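import Pool.Agent.Y441.BP.D128

/-!
# A blow-up pattern with 128 clusters: checks for plane 1
-/

set_option autoImplicit false

namespace Pool.Agent.Y441.BP.D128P1

open Pool.Agent.Y441.BP Pool.Agent.Y441.BP.D128

theorem sX : smallOk 128 X1 = true := by decide +kernel

theorem sY : smallOk 128 Y1 = true := by decide +kernel

theorem sU : smallOk 128 U1 = true := by decide +kernel

theorem sV : smallOk 128 V1 = true := by decide +kernel

theorem c0 : chk 128 X1 Y1 U1 V1 T1 0 8 = true := by decide +kernel

theorem c1 : chk 128 X1 Y1 U1 V1 T1 8 8 = true := by decide +kernel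

theorem c2 : chk 128 X1 Y1 U1 V1 T1 16 8 = true := by decide +kernel

theorem c3 : chk 128 X1 Y1 U1 V1 T1 24 8 = true := by decide +kernel

theorem c4 : chk 128 X1 Y1 U1 V1 T1 32 8 = true := by decide +kernel

theorem c5 : chk 128 X1 Y1 U1 V1 T1 40 8 = true := by decide +kernel

theorem c6 : chk 128 X1 Y1 U1 V1 T1 48 8 = true := by decide +kernel

theorem c7 : chk 128 X1 Y1 U1 V1 T1 56 8 = true := by decide +kernel

theorem c8 : chk 128 X1 Y1 U1 V1 T1 64 8 = true := by decide +kernel

theorem c9 : chk 128 X1 Y1 U1 V1 T1 72 8 = true := by decide +kernel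

theorem c10 : chk 128 X1 Y1 U1 V1 T1 80 8 = true := by decide +kernel

theorem c11 : chk 128 X1 Y1 U1 V1 T1 88 8 = true := by decide +kernel

theorem c12 : chk 128 X1 Y1 U1 V1 T1 96 8 = true := by decide +kernel

theorem c13 : chk 128 X1 Y1 U1 V1 T1 104 8 = true := by decide +kernel

theorem c14 : chk 128 X1 Y1 U1 V1 T1 112 8 = true := by decide +kernel

theorem c15 : chk 128 X1 Y1 U1 V1 T1 120 8 = true := by decide +kernel

theorem b0 : blk 128 1032 T1 K1 0 8 = 908526 := by decide +kernel

theorem b1 : blk 128 1032 T1 K1 8 8 = 871766 := by decide +kernel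

theorem b2 : blk 128 1032 T1 K1 16 8 = 853444 := by decide +kernel

theorem b3 : blk 128 1032 T1 K1 24 8 = 840907 := by decide +kernel

theorem b4 : blk 128 1032 T1 K1 32 8 = 839661 := by decide +kernel

theorem b5 : blk 128 1032 T1 K1 40 8 = 848374 := by decide +kernel

theorem b6 : blk 128 1032 T1 K1 48 8 = 722487 := by decide +kernel

theorem b7 : blk 128 1032 T1 K1 56 8 = 781296 := by decide +kernel

theorem b8 : blk 128 1032 T1 K1 64 8 = 809314 := by decide +kernel

theorem b9 : blk 128 1032 T1 K1 72 8 = 847316 := by decide +kernel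

theorem b10 : blk 128 1032 T1 K1 80 8 = 570658 := by decide +kernel

theorem b11 : blk 128 1032 T1 K1 88 8 = 747966 := by decide +kernel

theorem b12 : blk 128 1032 T1 K1 96 8 = 785192 := by decide +kernel

theorem b13 : blk 128 1032 T1 K1 104 8 = 989468 := by decide +kernel

theorem b14 : blk 128 1032 T1 K1 112 8 = 1059121 := by decide +kernel

theorem b15 : blk 128 1032 T1 K1 120 8 = 932148 := by decide +kernel

end Pool.Agent.Y441.BP.D128P1
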