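import Pool.Agent.Y441.BP.Limit
import Pool.Agent.Y441.BP.D128
import Pool.Agent.Y441.BP.D128P0
import Pool.Agent.Y441.BP.D128P1

/-!
# The bound from the blow-up pattern with 128 clusters
-/

set_option autoImplicit false

namespace Pool.Agent.Y441.BP.D128Bound

open Pool.Agent.Y441.BP Pool.Agent.Y441.BP.D128 Pool.Agent.Helper770.Crossing
open Pool.Agent.Helper770.Blowup Pool.Agent.Helper770.Blowup.Data

theorem all0 : ∀ v < 128, ∀ w < 128, pairOk 128 X0 Y0 U0 V0 T0 v w = true := by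
  intro v hv w hw
  rcases Nat.lt_or_ge v 8 with h | h
  · exact chk_spec Pool.Agent.Y441.BP.D128P0.c0 v (by omega) (by omega) w hw
  rcases Nat.lt_or_ge v 16 with h | h
  · exact chk_spec Pool.Agent.Y441.BP.D128P0.c1 v (by omega) (by omega) w hw
  rcases Nat.lt_or_ge v 24 with h | h
  · exact chk_spec Pool.Agent.Y441.BP.D128P0.c2 v (by omega) (by omega) w hw
  rcases Nat.lt_or_ge v 32 with h | h
  · exact chk_spec Pool.Agent.Y441.BP.D128P0.c3 v (by omega) (by omega) w hw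
  rcases Nat.lt_or_ge v 40 with h | h
  · exact chk_spec Pool.Agent.Y441.BP.D128P0.c4 v (by omega) (by omega) w hw
  rcases Nat.lt_or_ge v 48 with h | h
  · exact chk_spec Pool.Agent.Y441.BP.D128P0.c5 v (by omega) (by omega) w hw
  rcases Nat.lt_or_ge v 56 with h | h
  · exact chk_spec Pool.Agent.Y441.BP.D128P0.c6 v (by omega) (by omega) w hw
  rcases Nat.lt_or_ge v 64 with h | h
  · exact chk_spec Pool.Agent.Y441.BP.D128P0.c7 v (by omega) (by omega) w hw
  rcases Nat.lt_or_ge v 72 with h | h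
  · exact chk_spec Pool.Agent.Y441.BP.D128P0.c8 v (by omega) (by omega) w hw
  rcases Nat.lt_or_ge v 80 with h | h
  · exact chk_spec Pool.Agent.Y441.BP.D128P0.c9 v (by omega) (by omega) w hw
  rcases Nat.lt_or_ge v 88 with h | h
  · exact chk_spec Pool.Agent.Y441.BP.D128P0.c10 v (by omega) (by omega) w hw
  rcases Nat.lt_or_ge v 96 with h | h
  · exact chk_spec Pool.Agent.Y441.BP.D128P0.c11 v (by omega) (by omega) w hw
  rcases Nat.lt_or_ge v 104 with h | h
  · exact chk_spec Pool.Agent.Y441.BP.D128P0.c12 v (by omega) (by omega) w hw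
  rcases Nat.lt_or_ge v 112 with h | h
  · exact chk_spec Pool.Agent.Y441.BP.D128P0.c13 v (by omega) (by omega) w hw
  rcases Nat.lt_or_ge v 120 with h | h
  · exact chk_spec Pool.Agent.Y441.BP.D128P0.c14 v (by omega) (by omega) w hw
  · exact chk_spec Pool.Agent.Y441.BP.D128P0.c15 v (by omega) (by omega) w hw

theorem tab0 : (mkData 128 X0 Y0 U0 V0).Ok ∧ ∀ v w u : Fin 128,
    (mkData 128 X0 Y0 U0 V0).o v w u = (nth T0 v).testBit ((128 + 1) * w + u) :=
  table_spec (by norm_num) Pool.Agent.Y441.BP.D128P0.sX Pool.Agent.Y441.BP.D128P0.sY Pool.Agent.Y441.BP.D128P0.sU Pool.Agent.Y441.BP.D128P0.sV all0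

theorem sum0 : ∑ a ∈ Finset.range 128, ∑ b ∈ Finset.range 128, pr 128 1032 T0 K0 a b ≤ 13476356 := by
  have e : ∀ lo len : ℕ, ∑ a ∈ Finset.range (lo + len), ∑ b ∈ Finset.range 128, pr 128 1032 T0 K0 a b =
      ∑ a ∈ Finset.range lo, ∑ b ∈ Finset.range 128, pr 128 1032 T0 K0 a b + blk 128 1032 T0 K0 lo len := by
    intro lo len
    rw [blk_eq, Finset.sum_range_add]
  have e0 := e 0 8
  rw [Pool.Agent.Y441.BP.D128P0.b0] at e0
  have e1 := e 8 8
  rw [Pool.Agent.Y441.BP.D128P0.b1] at e1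
  have e2 := e 16 8
  rw [Pool.Agent.Y441.BP.D128P0.b2] at e2
  have e3 := e 24 8
  rw [Pool.Agent.Y441.BP.D128P0.b3] at e3
  have e4 := e 32 8
  rw [Pool.Agent.Y441.BP.D128P0.b4] at e4
  have e5 := e 40 8
  rw [Pool.Agent.Y441.BP.D128P0.b5] at e5
  have e6 := e 48 8
  rw [Pool.Agent.Y441.BP.D128P0.b6] at e6
  have e7 := e 56 8
  rw [Pool.Agent.Y441.BP.D128P0.b7] at e7
  have e8 := e 64 8
  rw [Pool.Agent.Y441.BP.D128P0.b8] at e8
  have e9 := e 72 8
  rw [Pool.Agent.Y441.BP.D128P0.b9] at e9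
  have e10 := e 80 8
  rw [Pool.Agent.Y441.BP.D128P0.b10] at e10
  have e11 := e 88 8
  rw [Pool.Agent.Y441.BP.D128P0.b11] at e11
  have e12 := e 96 8
  rw [Pool.Agent.Y441.BP.D128P0.b12] at e12
  have e13 := e 104 8
  rw [Pool.Agent.Y441.BP.D128P0.b13] at e13
  have e14 := e 112 8
  rw [Pool.Agent.Y441.BP.D128P0.b14] at e14
  have e15 := e 120 8
  rw [Pool.Agent.Y441.BP.D128P0.b15] at e15
  simp only [Nat.reduceAdd, Finset.range_zero, Finset.sum_empty] at e0 e1 e2 e3 e4 e5 e6 e7 e8 e9 e10 e11 e12 e13 e14 e15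
  omega

theorem all1 : ∀ v < 128, ∀ w < 128, pairOk 128 X1 Y1 U1 V1 T1 v w = true := by
  intro v hv w hw
  rcases Nat.lt_or_ge v 8 with h | h
  · exact chk_spec Pool.Agent.Y441.BP.D128P1.c0 v (by omega) (by omega) w hw
  rcases Nat.lt_or_ge v 16 with h | h
  · exact chk_spec Pool.Agent.Y441.BP.D128P1.c1 v (by omega) (by omega) w hw
  rcases Nat.lt_or_ge v 24 with h | h
  · exact chk_spec Pool.Agent.Y441.BP.D128P1.c2 v (by omega) (by omega) w hw
  rcases Nat.lt_or_ge v 32 with h | h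
  · exact chk_spec Pool.Agent.Y441.BP.D128P1.c3 v (by omega) (by omega) w hw
  rcases Nat.lt_or_ge v 40 with h | h
  · exact chk_spec Pool.Agent.Y441.BP.D128P1.c4 v (by omega) (by omega) w hw
  rcases Nat.lt_or_ge v 48 with h | h
  · exact chk_spec Pool.Agent.Y441.BP.D128P1.c5 v (by omega) (by omega) w hw
  rcases Nat.lt_or_ge v 56 with h | h
  · exact chk_spec Pool.Agent.Y441.BP.D128P1.c6 v (by omega) (by omega) w hw
  rcases Nat.lt_or_ge v 64 with h | h
  · exact chk_spec Pool.Agent.Y441.BP.D128P1.c7 v (by omega) (by omega) w hw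
  rcases Nat.lt_or_ge v 72 with h | h
  · exact chk_spec Pool.Agent.Y441.BP.D128P1.c8 v (by omega) (by omega) w hw
  rcases Nat.lt_or_ge v 80 with h | h
  · exact chk_spec Pool.Agent.Y441.BP.D128P1.c9 v (by omega) (by omega) w hw
  rcases Nat.lt_or_ge v 88 with h | h
  · exact chk_spec Pool.Agent.Y441.BP.D128P1.c10 v (by omega) (by omega) w hw
  rcases Nat.lt_or_ge v 96 with h | h
  · exact chk_spec Pool.Agent.Y441.BP.D128P1.c11 v (by omega) (by omega) w hw
  rcases Nat.lt_or_ge v 104 with h | h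
  · exact chk_spec Pool.Agent.Y441.BP.D128P1.c12 v (by omega) (by omega) w hw
  rcases Nat.lt_or_ge v 112 with h | h
  · exact chk_spec Pool.Agent.Y441.BP.D128P1.c13 v (by omega) (by omega) w hw
  rcases Nat.lt_or_ge v 120 with h | h
  · exact chk_spec Pool.Agent.Y441.BP.D128P1.c14 v (by omega) (by omega) w hw
  · exact chk_spec Pool.Agent.Y441.BP.D128P1.c15 v (by omega) (by omega) w hw

theorem tab1 : (mkData 128 X1 Y1 U1 V1).Ok ∧ ∀ v w u : Fin 128,
    (mkData 128 X1 Y1 U1 V1).o v w u = (nth T1 v).testBit ((128 + 1) * w + u) :=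
  table_spec (by norm_num) Pool.Agent.Y441.BP.D128P1.sX Pool.Agent.Y441.BP.D128P1.sY Pool.Agent.Y441.BP.D128P1.sU Pool.Agent.Y441.BP.D128P1.sV all1

theorem sum1 : ∑ a ∈ Finset.range 128, ∑ b ∈ Finset.range 128, pr 128 1032 T1 K1 a b ≤ 13407644 := by
  have e : ∀ lo len : ℕ, ∑ a ∈ Finset.range (lo + len), ∑ b ∈ Finset.range 128, pr 128 1032 T1 K1 a b =
      ∑ a ∈ Finset.range lo, ∑ b ∈ Finset.range 128, pr 128 1032 T1 K1 a b + blk 128 1032 T1 K1 lo len := by
    intro lo len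
    rw [blk_eq, Finset.sum_range_add]
  have e0 := e 0 8
  rw [Pool.Agent.Y441.BP.D128P1.b0] at e0
  have e1 := e 8 8
  rw [Pool.Agent.Y441.BP.D128P1.b1] at e1
  have e2 := e 16 8
  rw [Pool.Agent.Y441.BP.D128P1.b2] at e2
  have e3 := e 24 8
  rw [Pool.Agent.Y441.BP.D128P1.b3] at e3
  have e4 := e 32 8
  rw [Pool.Agent.Y441.BP.D128P1.b4] at e4
  have e5 := e 40 8
  rw [Pool.Agent.Y441.BP.D128P1.b5] at e5
  have e6 := e 48 8
  rw [Pool.Agent.Y441.BP.D128P1.b6] at e6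
  have e7 := e 56 8
  rw [Pool.Agent.Y441.BP.D128P1.b7] at e7
  have e8 := e 64 8
  rw [Pool.Agent.Y441.BP.D128P1.b8] at e8
  have e9 := e 72 8
  rw [Pool.Agent.Y441.BP.D128P1.b9] at e9
  have e10 := e 80 8
  rw [Pool.Agent.Y441.BP.D128P1.b10] at e10
  have e11 := e 88 8
  rw [Pool.Agent.Y441.BP.D128P1.b11] at e11
  have e12 := e 96 8
  rw [Pool.Agent.Y441.BP.D128P1.b12] at e12
  have e13 := e 104 8
  rw [Pool.Agent.Y441.BP.D128P1.b13] at e13
  have e14 := e 112 8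
  rw [Pool.Agent.Y441.BP.D128P1.b14] at e14
  have e15 := e 120 8
  rw [Pool.Agent.Y441.BP.D128P1.b15] at e15
  simp only [Nat.reduceAdd, Finset.range_zero, Finset.sum_empty] at e0 e1 e2 e3 e4 e5 e6 e7 e8 e9 e10 e11 e12 e13 e14 e15
  omega

theorem colours : K0 = (rp (128 + 1) 128 * (2 ^ 128 - 1)) ^^^ K1 := by decide +kernel

theorem symmetric : symOk 128 K1 = true := by decide +kernel

theorem bound (t : ℕ) : biplanarCrossingNumber (⊤ : SimpleGraph (Fin 128 × Fin t)) ≤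
    t.choose 4 * (13476356 + 13407644) + 4 * (t ^ 3 * 128 ^ 4) :=
  blow_bound (n := 128) (k := 1032) (by norm_num) (by norm_num) (by norm_num) tab0 tab1 colours symmetric
    sum0 sum1 t

end Pool.Agent.Y441.BP.D128Bound
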