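import Pool.Agent.Y441.BP.Check

/-!
# From a blow-up pattern to a bound for the constant
-/

set_option autoImplicit false

namespace Pool.Agent.Y441.BP

open Pool.Agent.Helper770.Crossing Pool.Agent.Helper770.Straight Filter Topology
open Pool.Agent.Helper770.Blowup Pool.Agent.Helper770.Blowup.Data

theorem upper_of_blow {m M : ℕ} (hm : 0 < m) (h : ∀ t : ℕ, biplanarCrossingNumber
    (⊤ : SimpleGraph (Fin m × Fin t)) ≤ t.choose 4 * M + 4 * (t ^ 3 * m ^ 4)) (n : ℕ) :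
    (biplanarCrossingNumber (⊤ : SimpleGraph (Fin n)) : ℝ) ≤
      (M : ℝ) / m ^ 4 / 24 * ((n : ℝ) + m) ^ 4 + 4 * m * ((n : ℝ) + m) ^ 3 := by
  have hm' : (0 : ℝ) < m := by exact_mod_cast hm
  have h1 : biplanarCrossingNumber (⊤ : SimpleGraph (Fin n)) ≤
      (n / m + 1).choose 4 * M + 4 * ((n / m + 1) ^ 3 * m ^ 4) := by
    refine (biplanar_top_le ?_).trans (h (n / m + 1))
    rw [Fintype.card_prod, Fintype.card_fin, Fintype.card_fin, Fintype.card_fin]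
    have := Nat.lt_mul_div_succ n hm
    exact this.le
  have h2 : (biplanarCrossingNumber (⊤ : SimpleGraph (Fin n)) : ℝ) ≤
      ((n / m + 1 : ℕ).choose 4 : ℝ) * M + 4 * (((n / m + 1 : ℕ) : ℝ) ^ 3 * m ^ 4) := by
    exact_mod_cast h1
  have h3 : ((n / m + 1 : ℕ).choose 4 : ℝ) ≤ ((n / m + 1 : ℕ) : ℝ) ^ 4 / 24 := by
    have := Nat.choose_le_pow_div (α := ℝ) 4 (n / m + 1)
    have e : ((Nat.factorial 4 : ℕ) : ℝ) = 24 := by norm_num [Nat.factorial]
    rw [e] at this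
    exact this
  have h4 : ((n / m + 1 : ℕ) : ℝ) ≤ ((n : ℝ) + m) / m := by
    have h5 : ((n / m : ℕ) : ℝ) ≤ (n : ℝ) / m := @Nat.cast_div_le ℝ _ _ _ n m
    push_cast
    rw [add_div, div_self hm'.ne']
    linarith
  have h0 : (0 : ℝ) ≤ ((n / m + 1 : ℕ) : ℝ) := Nat.cast_nonneg _
  have h6 : ((n / m + 1 : ℕ) : ℝ) ^ 4 ≤ (((n : ℝ) + m) / m) ^ 4 := pow_le_pow_left₀ h0 h4 4
  have h7 : ((n / m + 1 : ℕ) : ℝ) ^ 3 ≤ (((n : ℝ) + m) / m) ^ 3 := pow_le_pow_left₀ h0 h4 3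
  have hM : (0 : ℝ) ≤ M := Nat.cast_nonneg _
  calc (biplanarCrossingNumber (⊤ : SimpleGraph (Fin n)) : ℝ)
      ≤ ((n / m + 1 : ℕ).choose 4 : ℝ) * M + 4 * (((n / m + 1 : ℕ) : ℝ) ^ 3 * m ^ 4) := h2
    _ ≤ (((n : ℝ) + m) / m) ^ 4 / 24 * M + 4 * ((((n : ℝ) + m) / m) ^ 3 * m ^ 4) := by
        have := mul_le_mul_of_nonneg_right (h3.trans (div_le_div_of_nonneg_right h6 (by norm_num :
          (0 : ℝ) ≤ 24))) hM
        have h8 := mul_le_mul_of_nonneg_right h7 (by positivity : (0 : ℝ) ≤ (m : ℝ) ^ 4)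
        linarith
    _ = _ := by
        field_simp

theorem choose_lower (n : ℕ) (hn : 4 ≤ n) : ((n : ℝ) - 3) ^ 4 / 24 ≤ (n.choose 4 : ℝ) := by
  have h1 : (n + 1 - 4) ^ 4 ≤ n.descFactorial 4 := Nat.pow_sub_le_descFactorial n 4
  rw [Nat.descFactorial_eq_factorial_mul_choose] at h1
  have h2 : (((n + 1 - 4 : ℕ) : ℝ)) ^ 4 ≤ 24 * (n.choose 4 : ℝ) := by
    have e : (Nat.factorial 4) = 24 := rfl
    rw [e] at h1
    exact_mod_cast h1
  have h3 : ((n + 1 - 4 : ℕ) : ℝ) = (n : ℝ) - 3 := by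
    have : n + 1 - 4 = n - 3 := by omega
    rw [this, Nat.cast_sub (by omega)]
    norm_num
  rw [h3] at h2
  linarith

theorem limit_of_upper {c : ℝ} {m : ℕ} (h : ∀ n : ℕ,
    (biplanarCrossingNumber (⊤ : SimpleGraph (Fin n)) : ℝ) ≤
      c / 24 * ((n : ℝ) + m) ^ 4 + 4 * m * ((n : ℝ) + m) ^ 3) (ε : ℝ) (hε : 0 < ε) :
    ∀ᶠ n : ℕ in atTop, (biplanarCrossingNumber (⊤ : SimpleGraph (Fin n)) : ℝ) /
      (n.choose 4 : ℝ) ≤ c + ε := by
  have hle : ∀ n : ℕ, 4 ≤ n → (biplanarCrossingNumber (⊤ : SimpleGraph (Fin n)) : ℝ) /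
      (n.choose 4 : ℝ) ≤ c * (((n : ℝ) + m) / ((n : ℝ) - 3)) ^ 4 +
        96 * m * ((((n : ℝ) + m) / ((n : ℝ) - 3)) ^ 3 * (1 / ((n : ℝ) - 3))) := by
    intro n hn
    have hn' : (4 : ℝ) ≤ n := by exact_mod_cast hn
    have hp : 0 < (n : ℝ) - 3 := by linarith
    have h1 := h n
    have h2 := choose_lower n hn
    have h3 : 0 < ((n : ℝ) - 3) ^ 4 / 24 := by positivity
    calc (biplanarCrossingNumber (⊤ : SimpleGraph (Fin n)) : ℝ) / (n.choose 4 : ℝ)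
        ≤ (c / 24 * ((n : ℝ) + m) ^ 4 + 4 * m * ((n : ℝ) + m) ^ 3) /
          (((n : ℝ) - 3) ^ 4 / 24) := by
          apply div_le_div₀ _ h1 h3 h2
          exact le_trans (Nat.cast_nonneg _) h1
      _ = _ := by
          field_simp
          ring
  have ht : Tendsto (fun n : ℕ => (n : ℝ) - 3) atTop atTop :=
    tendsto_atTop_add_const_right _ _ tendsto_natCast_atTop_atTop
  have h1 : Tendsto (fun n : ℕ => 1 / ((n : ℝ) - 3)) atTop (𝓝 0) :=
    ht.const_div_atTop 1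
  have h2 : Tendsto (fun n : ℕ => ((n : ℝ) + m) / ((n : ℝ) - 3)) atTop (𝓝 1) := by
    have h3 : Tendsto (fun n : ℕ => 1 + ((m : ℝ) + 3) * (1 / ((n : ℝ) - 3))) atTop
        (𝓝 (1 + ((m : ℝ) + 3) * 0)) :=
      (h1.const_mul ((m : ℝ) + 3)).const_add 1
    rw [mul_zero, add_zero] at h3
    refine h3.congr' ?_
    filter_upwards [eventually_ge_atTop 4] with n hn
    have hn' : (4 : ℝ) ≤ n := by exact_mod_cast hn
    have hp : (n : ℝ) - 3 ≠ 0 := by linarith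
    field_simp
    ring
  have h4 := ((h2.pow 4).const_mul c).add (((h2.pow 3).mul h1).const_mul (96 * (m : ℝ)))
  have h5 := h4.eventually (gt_mem_nhds (show c * 1 ^ 4 + 96 * (m : ℝ) * (1 ^ 3 * 0) < c + ε by
    linarith))
  filter_upwards [h5, eventually_ge_atTop 4] with n h6 h7
  exact (hle n h7).trans h6.le

/-- symmetry of a colour matrix -/
def symOk (n K : ℕ) : Bool :=
  allTo n (fun a => allTo a (fun b => Nat.beq (bt (krow n K a) b) (bt (krow n K b) a)))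

theorem symOk_spec {n K : ℕ} (h : symOk n K = true) (v w : Fin n) :
    K.testBit ((n + 1) * v + w) = K.testBit ((n + 1) * w + v) := by
  have key : ∀ a b : Fin n, (b : ℕ) < a →
      K.testBit ((n + 1) * a + b) = K.testBit ((n + 1) * b + a) := by
    intro a b hab
    have h1 := allTo_spec (allTo_spec h a a.2) b hab
    rw [Nat.beq_eq, bt_eq, bt_eq, testBit_krow b.2, testBit_krow a.2] at h1
    cases h2 : K.testBit ((n + 1) * a + b) <;> cases h3 : K.testBit ((n + 1) * b + a) <;>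
      rw [h2, h3] at h1 <;> simp at h1
  rcases lt_trichotomy (v : ℕ) (w : ℕ) with h1 | h1 | h1
  · exact (key w v h1).symm
  · rw [h1]
  · exact key v w h1

/-- the bound from two checked planes -/
theorem blow_bound {n k : ℕ} {D0 D1 : Data n} {T0' T1' : List ℕ} {K0 K1 M0 M1 : ℕ}
    (hn : 3 ≤ n) (hk : 16 * k < 65535) (hnk : (n + 1) * n ≤ 16 * k)
    (h0 : D0.Ok ∧ ∀ v w u : Fin n, D0.o v w u = (nth T0' v).testBit ((n + 1) * w + u))
    (h1 : D1.Ok ∧ ∀ v w u : Fin n, D1.o v w u = (nth T1' v).testBit ((n + 1) * w + u))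
    (hK : K0 = (rp (n + 1) n * (2 ^ n - 1)) ^^^ K1) (hs : symOk n K1 = true)
    (hM0 : ∑ a ∈ Finset.range n, ∑ b ∈ Finset.range n, pr n k T0' K0 a b ≤ M0)
    (hM1 : ∑ a ∈ Finset.range n, ∑ b ∈ Finset.range n, pr n k T1' K1 a b ≤ M1) (t : ℕ) :
    biplanarCrossingNumber (⊤ : SimpleGraph (Fin n × Fin t)) ≤
      t.choose 4 * (M0 + M1) + 4 * (t ^ 3 * n ^ 4) := by
  set col : Fin n → Fin n → Bool := fun v w => K1.testBit ((n + 1) * v + w) with hcol
  refine blow h0.1 h1.1 hn (col := col) (fun v w => symOk_spec hs v w) (M0 + M1) ?_ t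
  refine Nat.add_le_add ((count_le hk hnk D0 T0' K0 col false h0.2 ?_).trans hM0)
    ((count_le hk hnk D1 T1' K1 col true h1.2 ?_).trans hM1)
  · intro v w
    rw [hK, Nat.testBit_xor, testBit_F v.2 w.2]
    simp only [hcol]
    cases K1.testBit ((n + 1) * (v : ℕ) + (w : ℕ)) <;> simp
  · intro v w
    rfl

end Pool.Agent.Y441.BP
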